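import Pool.Agent.W5h47.LT.C

set_option autoImplicit false

/-! # The Liouville and the Möbius function along the trajectories of the Collatz function -/

namespace Pool.Agent.W5h47.LT

open Finset Filter Topology Pool.Agent.H376R2.MR Pool.Agent.H970R2.X Pool.Agent.H426R3.CL
open Pool.Agent.W5h47.BD (T log_le_time zd_union zd_small zd_of T_iter_pos)
open Pool.Agent.H499R2.ND (Dn zd_mono)

theorem cls_lam : Cls lam := fun _ b hQ => gl_small hQ b

/-- the Möbius function -/
def mob (n : ℕ) : ℤ := ArithmeticFunction.moebius n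

theorem cls_mu : Cls mob := fun _ b hQ => gm_small hQ b

/-- the Collatz function -/
def Co (n : ℕ) : ℕ := if n % 2 = 0 then n / 2 else 3 * n + 1

theorem co_even {n : ℕ} (h : n % 2 = 0) : Co n = T n := by
  unfold Co T; rw [if_pos h, if_pos h]

theorem co_odd {n : ℕ} (h : ¬ n % 2 = 0) : Co (Co n) = T n := by
  unfold Co T
  rw [if_neg h, if_neg h, if_pos (by omega)]

theorem co_T : ∀ l n : ℕ, Co^[l] n = 1 → ∃ t ≤ l, T^[t] n = 1 := by
  intro l
  induction l using Nat.strong_induction_on with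
  | _ l ih =>
    intro n hn
    match l, ih, hn with
    | 0, _, hn => exact ⟨0, le_rfl, hn⟩
    | 1, _, hn =>
      by_cases h : n % 2 = 0
      · refine ⟨1, le_rfl, ?_⟩
        simp only [Function.iterate_one] at hn ⊢
        rw [← co_even h, hn]
      · exfalso
        simp only [Function.iterate_one] at hn
        unfold Co at hn
        rw [if_neg h] at hn
        omega
    | l + 2, ih, hn =>
      by_cases h : n % 2 = 0
      · rw [Function.iterate_succ_apply, co_even h] at hn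
        obtain ⟨t, ht, h1⟩ := ih (l + 1) (by omega) _ hn
        exact ⟨t + 1, by omega, by rw [Function.iterate_succ_apply, h1]⟩
      · rw [Function.iterate_succ_apply, Function.iterate_succ_apply, co_odd h] at hn
        obtain ⟨t, ht, h1⟩ := ih l (by omega) _ hn
        exact ⟨t + 1, by omega, by rw [Function.iterate_succ_apply, h1]⟩

/-- the value at `3 x + 1` for odd `x` -/
noncomputable def ev (g : ℕ → ℝ) (x : ℕ) : ℝ := if x % 2 = 0 then 0 else g (2 * T x)

theorem co_sum {g : ℕ → ℝ} (hg : ∀ n, |g n| ≤ 1) : ∀ s n : ℕ, ∃ s' ≤ s,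
    |∑ k ∈ range s, g (Co^[k] n) - ∑ j ∈ range s', (g (T^[j] n) + ev g (T^[j] n))| ≤ 1 ∧
    ∀ j < s', ∃ k < s, T^[j] n = Co^[k] n := by
  intro s
  induction s using Nat.strong_induction_on with
  | _ s ih =>
    intro n
    match s, ih with
    | 0, _ => exact ⟨0, le_rfl, by simp, by simp⟩
    | 1, _ => exact ⟨0, by omega, by simpa using hg n, by simp⟩
    | s + 2, ih =>
      by_cases h : n % 2 = 0
      · obtain ⟨s', h1, h2, h3⟩ := ih (s + 1) (by omega) (T n)
        refine ⟨s' + 1, by omega, ?_, ?_⟩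
        · rw [sum_range_succ', sum_range_succ' _ s']
          have e0 : ev g n = 0 := by unfold ev; rw [if_pos h]
          simp only [Function.iterate_succ_apply, Function.iterate_zero, id, co_even h, e0, add_zero]
          rw [add_sub_add_right_eq_sub]
          exact h2
        · intro j hj
          rcases Nat.eq_zero_or_pos j with h4 | h4
          · exact ⟨0, by omega, by rw [h4]; rfl⟩
          · obtain ⟨k, hk, h5⟩ := h3 (j - 1) (by omega)
            refine ⟨k + 1, by omega, ?_⟩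
            rw [Function.iterate_succ_apply, co_even h, ← h5, ← Function.iterate_succ_apply]
            congr 1
            omega
      · obtain ⟨s', h1, h2, h3⟩ := ih s (by omega) (T n)
        refine ⟨s' + 1, by omega, ?_, ?_⟩
        · rw [sum_range_succ', sum_range_succ', sum_range_succ' _ s']
          have e1 : Co n = 2 * T n := by
            unfold Co T
            rw [if_neg h, if_neg h]
            omega
          have e0 : ev g n = g (2 * T n) := by unfold ev; rw [if_neg h]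
          simp only [Function.iterate_succ_apply, Function.iterate_zero, id, co_odd h, e0]
          rw [e1]
          have e2 : ∀ A B x y : ℝ, A + x + y - (B + (y + x)) = A - B := fun A B x y => by ring
          rw [e2]
          exact h2
        · intro j hj
          rcases Nat.eq_zero_or_pos j with h4 | h4
          · exact ⟨0, by omega, by rw [h4]; rfl⟩
          · obtain ⟨k, hk, h5⟩ := h3 (j - 1) (by omega)
            refine ⟨k + 2, by omega, ?_⟩
            rw [Function.iterate_succ_apply, Function.iterate_succ_apply, co_odd h, ← h5,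
              ← Function.iterate_succ_apply]
            congr 1
            omega

theorem T_pos {n : ℕ} (hn : 1 ≤ n) : 1 ≤ T n := by
  unfold T; split_ifs <;> omega

/-- the two parts of the sum -/
theorem split {g h : ℕ → ℝ} (hg : ∀ n, |g n| ≤ 1) (hd : ∀ z, 1 ≤ z → g (2 * z) = -h z) {n : ℕ}
    (hn : 1 ≤ n) (s : ℕ) : ∃ s' ≤ s, |∑ k ∈ range s, g (Co^[k] n)| ≤
      |∑ j ∈ range s', g (T^[j] n)| + |∑ j ∈ range s', od h (T^[j] n)| + 1 ∧
    ∀ j < s', ∃ k < s, T^[j] n = Co^[k] n := by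
  obtain ⟨s', h1, h2, h3⟩ := co_sum hg s n
  refine ⟨s', h1, ?_, h3⟩
  have e1 : ∑ j ∈ range s', (g (T^[j] n) + ev g (T^[j] n)) =
      ∑ j ∈ range s', g (T^[j] n) - ∑ j ∈ range s', od h (T^[j] n) := by
    rw [← sum_sub_distrib]
    apply sum_congr rfl
    intro j _
    unfold od ev
    split_ifs with h0
    · ring
    · rw [hd _ (T_pos (T_iter_pos hn j))]
      ring
  rw [e1] at h2
  have h4 : |∑ k ∈ range s, g (Co^[k] n)| ≤
      |∑ k ∈ range s, g (Co^[k] n) - (∑ j ∈ range s', g (T^[j] n) - ∑ j ∈ range s', od h (T^[j] n))| +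
      |∑ j ∈ range s', g (T^[j] n) - ∑ j ∈ range s', od h (T^[j] n)| := by
    have := abs_add_le (∑ k ∈ range s, g (Co^[k] n) -
      (∑ j ∈ range s', g (T^[j] n) - ∑ j ∈ range s', od h (T^[j] n)))
      (∑ j ∈ range s', g (T^[j] n) - ∑ j ∈ range s', od h (T^[j] n))
    rwa [sub_add_cancel] at this
  have h5 := abs_sub (∑ j ∈ range s', g (T^[j] n)) (∑ j ∈ range s', od h (T^[j] n))
  linarith

theorem co_complete {g h : ℕ → ℝ} (hg : SA g) (hh : SA h) (hd : ∀ z, 1 ≤ z → g (2 * z) = -h z)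
    (ε : ℝ) (hε : 0 < ε) : Dn (fun n => ∃ l : ℕ, (Co^[l] n = 1 ∧ ∀ j < l, Co^[j] n ≠ 1) ∧ ∃ s ≤ l,
      ε * l < |∑ k ∈ range s, g (Co^[k] n)|) 0 := by
  have h1 := complete (sl_of_sa hg) (ε / 3) (by positivity)
  have h2 := complete (sl_od hh) (ε / 3) (by positivity)
  have h3 := zd_small (3 / ε)
  refine zd_mono (zd_union (zd_union h1 h2) h3) ?_
  rintro n hn ⟨l, ⟨hl, hlm⟩, s, hs, g6⟩
  by_contra hcon
  rw [not_or, not_or] at hcon
  obtain ⟨⟨hc1, hc2⟩, hc3⟩ := hcon
  push Not at hc3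
  have hl3 : 3 < ε * Real.log n := by
    rw [div_lt_iff₀ hε] at hc3
    linarith
  obtain ⟨t₀, ht₀, ht₀'⟩ := co_T l n hl
  classical
  have hex : ∃ t, T^[t] n = 1 := ⟨t₀, ht₀'⟩
  set t := Nat.find hex with ht
  have ht1 : T^[t] n = 1 := Nat.find_spec hex
  have htm : ∀ j < t, T^[j] n ≠ 1 := fun j hj => Nat.find_min hex hj
  have htl : t ≤ l := (Nat.find_min' hex ht₀').trans ht₀
  obtain ⟨s', hs', h4, h5⟩ := split hg.1 hd hn s
  have hs't : s' ≤ t := by
    by_contra h6
    push Not at h6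
    obtain ⟨k, hk, h7⟩ := h5 t h6
    rw [ht1] at h7
    exact hlm k (by omega) h7.symm
  have k1 : |∑ k ∈ range s', g (T^[k] n)| ≤ ε / 3 * t := by
    by_contra h6
    push Not at h6
    exact hc1 ⟨t, ⟨ht1, htm⟩, s', hs't, h6⟩
  have k2 : |∑ k ∈ range s', od h (T^[k] n)| ≤ ε / 3 * t := by
    by_contra h6
    push Not at h6
    exact hc2 ⟨t, ⟨ht1, htm⟩, s', hs't, h6⟩
  have k3 := log_le_time hn ht1
  have k4 : (t : ℝ) ≤ l := by exact_mod_cast htl
  have k5 : ε * Real.log n ≤ ε * l := by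
    apply mul_le_mul_of_nonneg_left _ hε.le
    linarith
  have k6 : ε / 3 * (t : ℝ) ≤ ε / 3 * l := by gcongr
  linarith

theorem co_partial {g h : ℕ → ℝ} (hg : SA g) (hh : SA h) (hd : ∀ z, 1 ≤ z → g (2 * z) = -h z)
    (c ε : ℝ) (hc : 0 < c) (hε : 0 < ε) : Dn (fun n : ℕ => ∃ s : ℕ,
      (∀ k < s, (n : ℝ) ^ c ≤ ((Co^[k] n : ℕ) : ℝ)) ∧
      ε * Real.log n < |∑ k ∈ range s, g (Co^[k] n)|) 0 := by
  have h1 := partial_zd (sl_of_sa hg) c (ε / 3) hc (by positivity)
  have h2 := partial_zd (sl_od hh) c (ε / 3) hc (by positivity)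
  have h3 := zd_small (3 / ε)
  refine zd_mono (zd_union (zd_union h1 h2) h3) ?_
  rintro n hn ⟨s, hs, g6⟩
  by_contra hcon
  rw [not_or, not_or] at hcon
  obtain ⟨⟨hc1, hc2⟩, hc3⟩ := hcon
  push Not at hc3
  have hl3 : 3 < ε * Real.log n := by
    rw [div_lt_iff₀ hε] at hc3
    linarith
  obtain ⟨s', hs', h4, h5⟩ := split hg.1 hd hn s
  have hlow : ∀ k < s', (n : ℝ) ^ c ≤ ((T^[k] n : ℕ) : ℝ) := by
    intro j hj
    obtain ⟨k, hk, h7⟩ := h5 j hj
    rw [h7]
    exact hs k hk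
  have k1 : |∑ k ∈ range s', g (T^[k] n)| ≤ ε / 3 * Real.log n := by
    by_contra h6
    push Not at h6
    exact hc1 ⟨s', hlow, h6⟩
  have k2 : |∑ k ∈ range s', od h (T^[k] n)| ≤ ε / 3 * Real.log n := by
    by_contra h6
    push Not at h6
    exact hc2 ⟨s', hlow, h6⟩
  linarith

theorem zd_ex {P : ℕ → ℕ → Prop} : ∀ q : ℕ, (∀ a < q, Dn (P a) 0) → Dn (fun n => ∃ a < q, P a n) 0 := by
  intro q
  induction q with
  | zero =>
    intro _
    refine zd_mono (zd_small (-1)) ?_
    rintro n _ ⟨a, ha, _⟩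
    omega
  | succ q ih =>
    intro h
    refine zd_mono (zd_union (ih fun a ha => h a (by omega)) (h q (by omega))) ?_
    rintro n _ ⟨a, ha, h1⟩
    rcases Nat.lt_or_ge a q with h2 | h2
    · exact Or.inl ⟨a, h2, h1⟩
    · have : a = q := by omega
      subst this
      exact Or.inr h1

/-- doubling the argument -/
def Dbl (w : ℕ → ℤ) : Prop := ∀ (q : ℕ) (P : ℕ → Prop), 0 < q → ∃ (q' : ℕ) (P' : ℕ → Prop), 0 < q' ∧
  ∀ z, 1 ≤ z → rest w q P (2 * z) = -rest w q' P' z

theorem dbl_lam : Dbl lam := by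
  intro q P hq
  refine ⟨q, fun r => P ((2 * r) % q), hq, fun z hz => ?_⟩
  unfold rest
  have e1 : (2 * (z % q)) % q = (2 * z) % q := by
    rw [Nat.mul_mod, Nat.mod_mod, ← Nat.mul_mod]
  rw [lam_mul_prime Nat.prime_two (by omega)]
  by_cases h : P ((2 * z) % q)
  · rw [if_pos h, if_pos (by show P _; rw [e1]; exact h)]
    push_cast
    ring
  · rw [if_neg h, if_neg (by show ¬ P _; rw [e1]; exact h), neg_zero]

theorem dbl_mu : Dbl mob := by
  intro q P hq
  refine ⟨2 * q, fun r => r % 2 = 1 ∧ P ((2 * r) % q), by omega, fun z hz => ?_⟩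
  unfold rest
  have e1 : (2 * (z % (2 * q))) % q = (2 * z) % q := by
    rw [Nat.mul_mod, Nat.mod_mul_left_mod, ← Nat.mul_mod]
  have e2 : z % (2 * q) % 2 = z % 2 := Nat.mod_mul_right_mod z 2 q
  rcases Nat.mod_two_eq_zero_or_one z with h | h
  · have h3 : mob (2 * z) = 0 := by
      show ArithmeticFunction.moebius (2 * z) = 0
      apply ArithmeticFunction.moebius_eq_zero_of_not_squarefree
      obtain ⟨y, rfl⟩ := Nat.dvd_of_mod_eq_zero h
      intro hs
      have := hs 2 ⟨y, by ring⟩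
      simp at this
    have h5 : ¬ (z % (2 * q) % 2 = 1 ∧ P ((2 * (z % (2 * q))) % q)) := by
      rw [e2, h]; simp
    rw [h3, Int.cast_zero, ite_self]
    symm
    rw [neg_eq_zero]
    exact if_neg h5
  · have h3 : mob (2 * z) = -mob z := by
      show ArithmeticFunction.moebius (2 * z) = -ArithmeticFunction.moebius z
      rw [ArithmeticFunction.isMultiplicative_moebius.map_mul_of_coprime
        ((Nat.Prime.coprime_iff_not_dvd Nat.prime_two).2 (by omega)),
        ArithmeticFunction.moebius_apply_prime Nat.prime_two]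
      ring
    rw [h3]
    by_cases h4 : P ((2 * z) % q)
    · rw [if_pos h4, if_pos ⟨by rw [e2, h], by rw [e1]; exact h4⟩]
      push_cast
      ring
    · rw [if_neg h4, if_neg (fun h5 => h4 (by rw [← e1]; exact h5.2)), neg_zero]

theorem rest_sum (w : ℕ → ℤ) (q a s n : ℕ) :
    ((∑ k ∈ (range s).filter (fun k => Co^[k] n % q = a), w (Co^[k] n) : ℤ) : ℝ) =
      ∑ k ∈ range s, rest w q (fun r => r = a) (Co^[k] n) := by
  push_cast
  rw [sum_filter]
  apply sum_congr rfl
  intro k _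
  unfold rest
  split_ifs <;> rfl

theorem final {w : ℕ → ℤ} (hw : Cls w) (hd : Dbl w) (q : ℕ) (hq : 0 < q) (ε : ℝ) (hε : 0 < ε) :
    Dn (fun n => ∃ l : ℕ, (Co^[l] n = 1 ∧ ∀ j < l, Co^[j] n ≠ 1) ∧ ∃ s ≤ l, ∃ a < q,
      ε * l < |((∑ k ∈ (range s).filter (fun k => Co^[k] n % q = a), w (Co^[k] n) : ℤ) : ℝ)|) 0 ∧
    ∀ c : ℝ, 0 < c → Dn (fun n : ℕ => ∃ s : ℕ,
      (∀ k < s, (n : ℝ) ^ c ≤ ((Co^[k] n : ℕ) : ℝ)) ∧ ∃ a < q,
      ε * Real.log n <
        |((∑ k ∈ (range s).filter (fun k => Co^[k] n % q = a), w (Co^[k] n) : ℤ) : ℝ)|) 0 := by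
  have key : ∀ a : ℕ, SA (rest w q (fun r => r = a)) ∧ ∃ h : ℕ → ℝ, SA h ∧
      ∀ z, 1 ≤ z → rest w q (fun r => r = a) (2 * z) = -h z := by
    intro a
    obtain ⟨q', P', hq', h⟩ := hd q (fun r => r = a) hq
    exact ⟨sa_rest hw hq _, rest w q' P', sa_rest hw hq' _, h⟩
  constructor
  · refine zd_mono (zd_ex q (P := fun a n => ∃ l : ℕ, (Co^[l] n = 1 ∧ ∀ j < l, Co^[j] n ≠ 1) ∧
      ∃ s ≤ l, ε * l < |∑ k ∈ range s, rest w q (fun r => r = a) (Co^[k] n)|) ?_) ?_
    · intro a _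
      obtain ⟨h1, h, h2, h3⟩ := key a
      exact co_complete h1 h2 h3 ε hε
    · rintro n _ ⟨l, hl, s, hs, a, ha, h⟩
      rw [rest_sum] at h
      exact ⟨a, ha, l, hl, s, hs, h⟩
  · intro c hc
    refine zd_mono (zd_ex q (P := fun a n => ∃ s : ℕ,
      (∀ k < s, (n : ℝ) ^ c ≤ ((Co^[k] n : ℕ) : ℝ)) ∧
      ε * Real.log n < |∑ k ∈ range s, rest w q (fun r => r = a) (Co^[k] n)|) ?_) ?_
    · intro a _
      obtain ⟨h1, h, h2, h3⟩ := key a
      exact co_partial h1 h2 h3 c ε hc hε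
    · rintro n _ ⟨s, hs, a, ha, h⟩
      rw [rest_sum] at h
      exact ⟨a, ha, s, hs, h⟩

end Pool.Agent.W5h47.LT
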