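import Pool.Agent.W5h47.LT.A

set_option autoImplicit false

/-! # Short averages along progressions of functions orthogonal to almost locally constant ones -/

namespace Pool.Agent.W5h47.LT

open Finset Pool.Agent.H376R2.MR Pool.Agent.H970R2.X Pool.Agent.H426R3.CL Pool.Agent.H426R3.CG

/-- the restrictions of `w` to residue classes have small short averages -/
def Cls (w : ℕ → ℤ) : Prop := ∀ Q b : ℕ, 0 < Q → SmallAvg (fun n => if n % Q = b % Q then w n else 0)

open scoped Classical in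
/-- the restriction of `w` to residue classes modulo `q` -/
noncomputable def rest (w : ℕ → ℤ) (q : ℕ) (P : ℕ → Prop) (n : ℕ) : ℝ :=
  if P (n % q) then (w n : ℝ) else 0

theorem cls_abs {w : ℕ → ℤ} (hw : Cls w) (n : ℕ) : |(w n : ℝ)| ≤ 1 := by
  have h := (hw 1 0 one_pos).1 n
  simp only [Nat.mod_one, if_true] at h
  exact_mod_cast h

theorem rest_abs {w : ℕ → ℤ} (hw : Cls w) (q : ℕ) (P : ℕ → Prop) (n : ℕ) : |rest w q P n| ≤ 1 := by
  unfold rest
  split_ifs
  · exact cls_abs hw n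
  · simp

open scoped Classical in
theorem cls_sum (w : ℕ → ℤ) {q D : ℕ} (hq : 0 < q) (hD : 0 < D) (P : ℕ → Prop) (f : ℕ → ℝ) (m : ℕ) :
    rest w q P m * f m = ∑ b ∈ (range (q * D)).filter (fun b => P (b % q)),
      (((if m % (q * D) = b % (q * D) then w m else 0 : ℤ)) : ℝ) * f (blk D (b % D) m) := by
  have hqD : 0 < q * D := Nat.mul_pos hq hD
  unfold rest
  by_cases h1 : P (m % q)
  · rw [if_pos h1, sum_eq_single (m % (q * D))]
    · rw [Nat.mod_mod, if_pos rfl, Nat.mod_mul_left_mod, blk_self hD rfl]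
    · intro b hb hne
      rw [mem_filter, mem_range] at hb
      rw [if_neg]
      · simp
      · rw [Nat.mod_eq_of_lt hb.1]
        exact fun h => hne h.symm
    · intro hn
      exfalso
      apply hn
      rw [mem_filter, mem_range]
      exact ⟨Nat.mod_lt _ hqD, by rw [Nat.mod_mul_right_mod]; exact h1⟩
  · rw [if_neg h1, zero_mul]
    symm
    apply sum_eq_zero
    intro b hb
    rw [mem_filter, mem_range] at hb
    rw [if_neg]
    · simp
    · intro h2
      apply h1
      rw [← Nat.mod_mul_right_mod m q D, h2, Nat.mod_mul_right_mod]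
      exact hb.2

open scoped Classical in
theorem orth_fin {w : ℕ → ℤ} (hw : Cls w) {q D : ℕ} (hq : 0 < q) (hD : 0 < D) (P : ℕ → Prop) {ε : ℝ}
    (hε : 0 < ε) : ∃ δ : ℝ, 0 < δ ∧ ∃ N₁ : ℕ, ∀ N ≥ N₁, ∀ f : ℕ → ℝ, (∀ n, |f n| ≤ 1) →
      (((Icc 1 (4 * N)).filter (fun i => f i ≠ f (i + D))).card : ℝ) ≤ δ * N →
      |∑ m ∈ Ioc (N / 2) N, rest w q P m * f m| ≤ ε * N := by
  have hqD : 0 < q * D := Nat.mul_pos hq hD
  have hqD' : (0 : ℝ) < ((q * D : ℕ) : ℝ) := by exact_mod_cast hqD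
  choose D₀ δ₀ hδ₀ N₁ hN₁ using fun b : ℕ => block_fin (hw (q * D) b hqD) (ε := ε / ((q * D : ℕ) : ℝ))
    (by positivity)
  obtain ⟨δ, hδ, hδm⟩ : ∃ δ : ℝ, 0 < δ ∧ ∀ b ∈ range (q * D), δ ≤ δ₀ b := by
    have hne : (range (q * D)).Nonempty := ⟨0, mem_range.2 hqD⟩
    refine ⟨(range (q * D)).inf' hne δ₀, ?_, fun b hb => inf'_le _ hb⟩
    rw [lt_inf'_iff]
    exact fun b _ => hδ₀ b
  obtain ⟨M, hM⟩ : ∃ M : ℕ, ∀ b ∈ range (q * D), N₁ b ≤ M ∧ D₀ b ≤ M := by
    refine ⟨(range (q * D)).sup N₁ + (range (q * D)).sup D₀, fun b hb => ⟨?_, ?_⟩⟩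
    · exact (le_sup hb (f := N₁)).trans (Nat.le_add_right _ _)
    · exact (le_sup hb (f := D₀)).trans (Nat.le_add_left _ _)
  refine ⟨δ, hδ, M, fun N hN f hf hch => ?_⟩
  have h1 : ∑ m ∈ Ioc (N / 2) N, rest w q P m * f m =
      ∑ b ∈ (range (q * D)).filter (fun b => P (b % q)), ∑ m ∈ Ioc (N / 2) N,
        (((if m % (q * D) = b % (q * D) then w m else 0 : ℤ)) : ℝ) * f (blk D (b % D) m) := by
    rw [sum_comm]
    exact sum_congr rfl fun m _ => cls_sum w hq hD P f m
  rw [h1]
  have h2 : ∀ b ∈ (range (q * D)).filter (fun b => P (b % q)), |∑ m ∈ Ioc (N / 2) N,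
        (((if m % (q * D) = b % (q * D) then w m else 0 : ℤ)) : ℝ) * f (blk D (b % D) m)| ≤
        ε / ((q * D : ℕ) : ℝ) * N := by
    intro b hb
    have hb' : b ∈ range (q * D) := (mem_filter.1 hb).1
    apply hN₁ b N ((hM b hb').1.trans hN) (fun m => f (blk D (b % D) m)) (fun n => hf _)
    have h3 : ((Icc 1 (3 * N + D₀ b)).filter
        (fun i : ℕ => f (blk D (b % D) i) ≠ f (blk D (b % D) (i + 1)))).card ≤
        ((Icc 1 (4 * N)).filter (fun i => f i ≠ f (i + D))).card := by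
      apply card_le_card
      intro n hn
      rw [mem_filter, mem_Icc] at hn ⊢
      have := (hM b hb').2
      refine ⟨⟨hn.1.1, by omega⟩, ?_⟩
      rcases blk_succ hD (Nat.mod_lt b hD) n with h1 | ⟨h1, h2⟩
      · exact absurd (by rw [h1]) hn.2
      · have := hn.2
        rw [h1, h2] at this
        exact this
    calc ((((Icc 1 (3 * N + D₀ b)).filter
        (fun i : ℕ => f (blk D (b % D) i) ≠ f (blk D (b % D) (i + 1)))).card : ℕ) : ℝ) ≤
        ((((Icc 1 (4 * N)).filter (fun i => f i ≠ f (i + D))).card : ℕ) : ℝ) := by exact_mod_cast h3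
      _ ≤ δ * N := hch
      _ ≤ δ₀ b * N := mul_le_mul_of_nonneg_right (hδm b hb') (Nat.cast_nonneg _)
  refine (abs_sum_le_sum_abs _ _).trans ((sum_le_sum h2).trans ?_)
  rw [sum_const, nsmul_eq_mul]
  have h4 : (((range (q * D)).filter (fun b => P (b % q))).card : ℝ) ≤ ((q * D : ℕ) : ℝ) := by
    have := card_filter_le (range (q * D)) (fun b => P (b % q))
    rw [card_range] at this
    exact_mod_cast this
  calc (((range (q * D)).filter (fun b => P (b % q))).card : ℝ) * (ε / ((q * D : ℕ) : ℝ) * N)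
      ≤ ((q * D : ℕ) : ℝ) * (ε / ((q * D : ℕ) : ℝ) * N) := by gcongr
    _ = ε * N := by field_simp

/-- sums over shifted intervals -/
theorem sum_shift {u : ℕ → ℝ} (hu : ∀ n, |u n| ≤ 1) {a b a' b' : ℕ} (hab : a ≤ b) (hab' : a' ≤ b')
    {c : ℕ} (h1 : a ≤ a' + c) (h1' : a' ≤ a + c) (h2 : b ≤ b' + c) (h2' : b' ≤ b + c) :
    |∑ n ∈ Ico a b, u n - ∑ n ∈ Ico a' b', u n| ≤ 2 * c := by
  have key : ∀ x y : ℕ, x ≤ y → y ≤ x + c → |∑ n ∈ range x, u n - ∑ n ∈ range y, u n| ≤ c := by
    intro x y hxy hyx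
    rw [abs_sub_comm, ← sum_Ico_eq_sub _ hxy]
    refine (abs_sum_le_sum_abs _ _).trans ?_
    calc ∑ n ∈ Ico x y, |u n| ≤ ∑ _n ∈ Ico x y, (1 : ℝ) := sum_le_sum fun n _ => hu n
      _ = ((y - x : ℕ) : ℝ) := by simp
      _ ≤ c := by
          have : y - x ≤ c := by omega
          exact_mod_cast this
  have key2 : ∀ x y : ℕ, x ≤ y + c → y ≤ x + c → |∑ n ∈ range x, u n - ∑ n ∈ range y, u n| ≤ c := by
    intro x y h1 h2
    rcases le_total x y with h | h
    · exact key x y h h2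
    · rw [abs_sub_comm]
      exact key y x h h1
  rw [sum_Ico_eq_sub _ hab, sum_Ico_eq_sub _ hab']
  have e : (∑ n ∈ range b, u n - ∑ n ∈ range a, u n) - (∑ n ∈ range b', u n - ∑ n ∈ range a', u n) =
      (∑ n ∈ range b, u n - ∑ n ∈ range b', u n) - (∑ n ∈ range a, u n - ∑ n ∈ range a', u n) := by ring
  rw [e]
  refine (abs_sub _ _).trans ?_
  have := key2 b b' h2 h2'
  have := key2 a a' h1 h1'
  linarith

/-- short sums along progressions with difference `D` -/
noncomputable def SS (h : ℕ → ℝ) (D H x : ℕ) : ℝ := ∑ i ∈ range H, h (x + D * i)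

/-- their signs -/
noncomputable def sg (h : ℕ → ℝ) (D H x : ℕ) : ℝ := if 0 ≤ SS h D H x then 1 else -1

theorem sg_abs (h : ℕ → ℝ) (D H x : ℕ) : |sg h D H x| ≤ 1 := by
  unfold sg; split_ifs <;> simp

theorem sg_mul (h : ℕ → ℝ) (D H x : ℕ) : sg h D H x * SS h D H x = |SS h D H x| := by
  unfold sg
  split_ifs with h0
  · rw [abs_of_nonneg h0, one_mul]
  · rw [abs_of_neg (not_le.1 h0)]; ring

/-- the distance to the beginning of the block -/
def dist (D H t n : ℕ) : ℕ := (n / D + H - t) % H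

/-- the sign of the block sum -/
noncomputable def ft (h : ℕ → ℝ) (D H t n : ℕ) : ℝ := sg h D H (n - D * dist D H t n)

theorem ft_step (h : ℕ → ℝ) {D H t n : ℕ} (hD : 0 < D) (hH : 0 < H) (ht : t < H) (hn : D * H ≤ n)
    (hne : (n / D + 1 + H - t) % H ≠ 0) : ft h D H t n = ft h D H t (n + D) := by
  unfold ft dist
  have h1 : (n + D) / D = n / D + 1 := Nat.add_div_right n hD
  rw [h1]
  generalize n / D = y at hne ⊢
  have h2 : (y + 1 + H - t) % H = (y + H - t) % H + 1 := by
    have e : y + 1 + H - t = (y + H - t) + 1 := by omega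
    rw [e] at hne ⊢
    rw [Nat.add_mod] at hne ⊢
    rcases Nat.lt_or_ge 1 H with h3 | h3
    · rw [Nat.mod_eq_of_lt h3] at hne ⊢
      have h4 : (y + H - t) % H < H := Nat.mod_lt _ hH
      rcases Nat.lt_or_ge ((y + H - t) % H + 1) H with h5 | h5
      · exact Nat.mod_eq_of_lt h5
      · exfalso
        apply hne
        have h6 : (y + H - t) % H + 1 = H := by omega
        rw [h6, Nat.mod_self]
    · have h6 : H = 1 := by omega
      subst h6
      exact absurd (Nat.mod_one _) hne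
  rw [h2]
  have h3 : (y + H - t) % H < H := Nat.mod_lt _ hH
  have h4 : D * ((y + H - t) % H) ≤ n := by
    have : D * ((y + H - t) % H) ≤ D * H := Nat.mul_le_mul_left _ h3.le
    omega
  congr 1
  rw [mul_add, mul_one]
  exact (Nat.add_sub_add_right n D _).symm

theorem ft_count (h : ℕ → ℝ) {D H t : ℕ} (hD : 0 < D) (hH : 0 < H) (ht : t < H) (M : ℕ) :
    (((Icc 1 M).filter (fun i => ft h D H t i ≠ ft h D H t (i + D))).card) ≤
      D * H + D * (M / (D * H) + 1) := by
  classical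
  have hDH : 0 < D * H := Nat.mul_pos hD hH
  -- the exceptions
  have hsub : (Icc 1 M).filter (fun i => ft h D H t i ≠ ft h D H t (i + D)) ⊆
      range (D * H) ∪ (range D ×ˢ range (M / (D * H) + 1)).image
        (fun p : ℕ × ℕ => D * H * p.2 + D * ((t + H - 1) % H) + p.1) := by
    intro n hn
    rw [mem_filter, mem_Icc] at hn
    obtain ⟨⟨h1, h2⟩, h3⟩ := hn
    rw [mem_union, mem_range]
    by_cases h4 : n < D * H
    · exact Or.inl h4
    right
    push Not at h4
    have h5 : (n / D + 1 + H - t) % H = 0 := by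
      by_contra h6
      exact h3 (ft_step h hD hH ht h4 h6)
    rw [mem_image]
    refine ⟨(n % D, n / D / H), ?_, ?_⟩
    · rw [mem_product, mem_range, mem_range]
      refine ⟨Nat.mod_lt _ hD, ?_⟩
      rw [Nat.div_div_eq_div_mul]
      exact Nat.lt_succ_of_le (Nat.div_le_div_right h2)
    · show D * H * (n / D / H) + D * ((t + H - 1) % H) + n % D = n
      have h6 : (n / D) % H = (t + H - 1) % H := by
        obtain ⟨c, hc⟩ := Nat.dvd_of_mod_eq_zero h5
        generalize n / D = y at hc ⊢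
        have h7 : y + 1 + H = H * c + t := by omega
        have h8 : y + H * 2 = (t + H - 1) + H * c := by omega
        have h9 := congrArg (· % H) h8
        simp only [Nat.add_mul_mod_self_left] at h9
        exact h9
      rw [← h6]
      have h7 := Nat.div_add_mod (n / D) H
      have h8 := Nat.div_add_mod n D
      calc D * H * (n / D / H) + D * (n / D % H) + n % D
          = D * (H * (n / D / H) + n / D % H) + n % D := by ring
        _ = n := by rw [h7, h8]
  refine (card_le_card hsub).trans ((card_union_le _ _).trans ?_)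
  rw [card_range]
  apply Nat.add_le_add_left
  refine card_image_le.trans ?_
  rw [card_product, card_range, card_range]

/-- the blocks through `n` -/
theorem ft_sum (h : ℕ → ℝ) {D H : ℕ} (hH : 0 < H) (n : ℕ) :
    ∑ t ∈ range H, ft h D H t n = ∑ j ∈ range H, sg h D H (n - D * j) := by
  unfold ft
  refine sum_nbij' (fun t => dist D H t n) (fun j => dist D H j n) ?_ ?_ ?_ ?_ ?_
  · intro t _
    exact mem_range.2 (Nat.mod_lt _ hH)
  · intro t _
    exact mem_range.2 (Nat.mod_lt _ hH)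
  · intro t ht
    rw [mem_range] at ht
    unfold dist
    generalize n / D = y
    have h1 := Nat.div_add_mod (y + H - t) H
    have h2 : (y + H - t) % H < H := Nat.mod_lt _ hH
    have h3 : y + H - (y + H - t) % H = t + H * ((y + H - t) / H) := by omega
    rw [h3, Nat.add_mul_mod_self_left, Nat.mod_eq_of_lt ht]
  · intro t ht
    rw [mem_range] at ht
    unfold dist
    generalize n / D = y
    have h1 := Nat.div_add_mod (y + H - t) H
    have h2 : (y + H - t) % H < H := Nat.mod_lt _ hH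
    have h3 : y + H - (y + H - t) % H = t + H * ((y + H - t) / H) := by omega
    rw [h3, Nat.add_mul_mod_self_left, Nat.mod_eq_of_lt ht]
  · intro t _
    rfl

/-- short averages: the property used below -/
def SA (h : ℕ → ℝ) : Prop := (∀ n, |h n| ≤ 1) ∧ ∀ D : ℕ, 0 < D → ∀ η : ℝ, 0 < η →
  ∃ H : ℕ, 1 ≤ H ∧ ∃ N₂ : ℕ, ∀ N ≥ N₂, ∑ x ∈ Ico N (2 * N), |SS h D H x| ≤ η * H * N

theorem sa_rest {w : ℕ → ℤ} (hw : Cls w) {q : ℕ} (hq : 0 < q) (P : ℕ → Prop) : SA (rest w q P) := by
  classical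
  refine ⟨rest_abs hw q P, fun D hD η hη => ?_⟩
  obtain ⟨δ, hδ, N₁, hN₁⟩ := orth_fin hw hq hD P (ε := η / 4) (by positivity)
  obtain ⟨H, hH⟩ := exists_nat_ge (max 1 (8 / δ))
  have hH1' : (1 : ℝ) ≤ H := (le_max_left _ _).trans hH
  have hH1 : 1 ≤ H := by exact_mod_cast hH1'
  have hH0 : 0 < H := hH1
  have hHδ : 8 ≤ H * δ := by
    have := (le_max_right _ _).trans hH
    rwa [div_le_iff₀ hδ] at this
  obtain ⟨M₁, hM₁⟩ := exists_nat_ge ((D * H + D) / δ)
  obtain ⟨M₂, hM₂⟩ := exists_nat_ge (2 * (2 * (D * H + 1)) / η)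
  refine ⟨H, hH1, max N₁ (max M₁ M₂), fun N hN => ?_⟩
  have a1 : N₁ ≤ N := (le_max_left _ _).trans hN
  have a2 : M₁ ≤ N := ((le_max_left _ _).trans (le_max_right _ _)).trans hN
  have a3 : M₂ ≤ N := ((le_max_right _ _).trans (le_max_right _ _)).trans hN
  have b2 : (D * H + D : ℝ) ≤ δ * N := by
    have h1 : (D * H + D : ℝ) / δ ≤ N := hM₁.trans (by exact_mod_cast a2)
    rw [div_le_iff₀ hδ] at h1
    linarith
  have b3 : (2 * (2 * (D * H + 1)) : ℝ) ≤ η * N := by
    have h1 : (2 * (2 * (D * H + 1)) : ℝ) / η ≤ N := hM₂.trans (by exact_mod_cast a3)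
    rw [div_le_iff₀ hη] at h1
    linarith
  set h : ℕ → ℝ := rest w q P with hh
  have hh1 : ∀ n, |h n| ≤ 1 := rest_abs hw q P
  have hft : ∀ t ∈ range H, |∑ m ∈ Ioc N (2 * N), h m * ft h D H t m| ≤ η / 4 * (2 * N : ℕ) := by
    intro t ht
    rw [mem_range] at ht
    have h1 := hN₁ (2 * N) (by omega) (ft h D H t) (fun n => sg_abs _ _ _ _) (by
      have h2 := ft_count h hD hH0 ht (4 * (2 * N))
      have h3 : (((Icc 1 (4 * (2 * N))).filter
          (fun i => ft h D H t i ≠ ft h D H t (i + D))).card : ℝ) ≤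
          D * H + D * ((4 * (2 * N) / (D * H) : ℕ) + 1) := by exact_mod_cast h2
      refine h3.trans ?_
      have hDH : (0 : ℝ) < D * H := by
        have : 0 < D * H := Nat.mul_pos hD hH0
        exact_mod_cast this
      have hD0 : (0 : ℝ) < D := by exact_mod_cast hD
      have h4 : ((4 * (2 * N) / (D * H) : ℕ) : ℝ) ≤ 8 * N / (D * H) := by
        have := @Nat.cast_div_le ℝ _ _ _ (4 * (2 * N)) (D * H)
        refine this.trans (le_of_eq ?_)
        push_cast
        ring
      have h5 : (D : ℝ) * (8 * N / (D * H)) ≤ δ * N := by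
        have e : (D : ℝ) * (8 * N / (D * H)) = 8 * N / H := by field_simp
        rw [e, div_le_iff₀ (by linarith)]
        have : (0 : ℝ) ≤ N := Nat.cast_nonneg _
        nlinarith
      push_cast
      nlinarith)
    rw [show 2 * N / 2 = N by omega] at h1
    exact h1
  -- sum over `t`
  have hsum : ∑ t ∈ range H, ∑ m ∈ Ioc N (2 * N), h m * ft h D H t m =
      ∑ j ∈ range H, ∑ m ∈ Ioc N (2 * N), h m * sg h D H (m - D * j) := by
    rw [sum_comm, sum_comm (s := range H)]
    refine sum_congr rfl fun m _ => ?_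
    rw [← mul_sum, ← mul_sum, ft_sum h hH0]
  have hIoc : Ioc N (2 * N) = Ico (N + 1) (2 * N + 1) := by
    ext x; rw [mem_Ioc, mem_Ico]; omega
  have hj : ∀ j ∈ range H, |∑ m ∈ Ioc N (2 * N), h m * sg h D H (m - D * j) -
      ∑ x ∈ Ico N (2 * N), h (x + D * j) * sg h D H x| ≤ 2 * (D * H + 1) := by
    intro j hj
    rw [mem_range] at hj
    have e1 : ∑ x ∈ Ico N (2 * N), h (x + D * j) * sg h D H x =
        ∑ m ∈ Ico (N + D * j) (2 * N + D * j), h m * sg h D H (m - D * j) := by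
      rw [← sum_Ico_add' (fun m => h m * sg h D H (m - D * j)) N (2 * N) (D * j)]
      refine sum_congr rfl fun x _ => ?_
      rw [Nat.add_sub_cancel]
    rw [e1, hIoc]
    have hDj : D * j ≤ D * H := Nat.mul_le_mul_left _ hj.le
    have h1 := sum_shift (u := fun m => h m * sg h D H (m - D * j)) (by
      intro n
      rw [abs_mul]
      calc |h n| * |sg h D H (n - D * j)| ≤ 1 * 1 :=
            mul_le_mul (hh1 n) (sg_abs _ _ _ _) (abs_nonneg _) zero_le_one
        _ = 1 := one_mul 1) (a := N + 1) (b := 2 * N + 1) (a' := N + D * j) (b' := 2 * N + D * j)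
      (by omega) (by omega) (c := D * H + 1) (by omega) (by omega) (by omega) (by omega)
    refine h1.trans (le_of_eq ?_)
    push_cast
    ring
  have hmain : ∑ x ∈ Ico N (2 * N), |SS h D H x| =
      ∑ j ∈ range H, ∑ x ∈ Ico N (2 * N), h (x + D * j) * sg h D H x := by
    rw [sum_comm]
    refine sum_congr rfl fun x _ => ?_
    rw [← sum_mul, ← sg_mul, mul_comm]
    rfl
  have h1 : |∑ j ∈ range H, ∑ m ∈ Ioc N (2 * N), h m * sg h D H (m - D * j)| ≤
      H * (η / 4 * (2 * N : ℕ)) := by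
    rw [← hsum]
    refine (abs_sum_le_sum_abs _ _).trans ((sum_le_sum hft).trans ?_)
    rw [sum_const, card_range, nsmul_eq_mul]
  have h2 : |∑ j ∈ range H, ∑ m ∈ Ioc N (2 * N), h m * sg h D H (m - D * j) -
      ∑ j ∈ range H, ∑ x ∈ Ico N (2 * N), h (x + D * j) * sg h D H x| ≤ H * (2 * (D * H + 1)) := by
    rw [← sum_sub_distrib]
    refine (abs_sum_le_sum_abs _ _).trans ((sum_le_sum hj).trans ?_)
    rw [sum_const, card_range, nsmul_eq_mul]
  rw [hmain]
  have h3 := (abs_le.1 h2).1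
  have h4 := (abs_le.1 h1).2
  have h5 : (H : ℝ) * (2 * (D * H + 1)) ≤ H * (η / 2 * N) := by
    apply mul_le_mul_of_nonneg_left _ (by linarith)
    linarith
  have h6 : (H : ℝ) * (η / 4 * (2 * N : ℕ)) = H * (η / 2 * N) := by push_cast; ring
  rw [h6] at h4
  nlinarith

end Pool.Agent.W5h47.LT
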