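import Pool.Agent.W5h47.LT.B
import Pool.Agent.W5h47.BD.D

set_option autoImplicit false

/-! # Functions with small short averages along the trajectories of the Collatz map -/

namespace Pool.Agent.W5h47.LT

open Finset Filter Topology
open Pool.Agent.W5h47.BD (T log_le_time zd_union zd_small zd_of T_iter_pos)
open Pool.Agent.H499R2.ND (Dn zd_mono)
open Pool.Agent.R344.SP (LocMean Wn mem_Wn)

/-- small averages along progressions with differences `3 ^ m Q` -/
def SL (u : ℕ → ℝ) : Prop := (∀ n, |u n| ≤ 1) ∧ ∀ m : ℕ, ∃ Q : ℕ, ∀ η : ℝ, 0 < η →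
  ∃ H : ℕ, 1 ≤ H ∧ ∃ N₂ : ℕ, ∀ N ≥ N₂, ∑ x ∈ Ico N (2 * N), |SS u (3 ^ m * Q) H x| ≤ η * H * N

theorem sl_of_sa {h : ℕ → ℝ} (hs : SA h) : SL h :=
  ⟨hs.1, fun m => ⟨1, fun η hη => hs.2 _ (by positivity) η hη⟩⟩

/-- the value at `(3 x + 1) / 2` for odd `x` -/
noncomputable def od (h : ℕ → ℝ) (x : ℕ) : ℝ := if x % 2 = 0 then 0 else h (T x)

theorem sl_od {h : ℕ → ℝ} (hs : SA h) : SL (od h) := by
  refine ⟨fun n => ?_, fun m => ⟨2, fun η hη => ?_⟩⟩
  · unfold od
    split_ifs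
    · simp
    · exact hs.1 _
  obtain ⟨H, hH, N₂, hN₂⟩ := hs.2 (3 ^ (m + 1)) (by positivity) (η / 3) (by positivity)
  refine ⟨H, hH, N₂, fun N hN => ?_⟩
  have e1 : ∀ x : ℕ, SS (od h) (3 ^ m * 2) H x = if x % 2 = 0 then 0 else SS h (3 ^ (m + 1)) H (T x) := by
    intro x
    unfold SS od
    have hp : ∀ i : ℕ, (x + 3 ^ m * 2 * i) % 2 = x % 2 := by
      intro i
      rw [mul_assoc, mul_left_comm]
      exact Nat.add_mul_mod_self_left _ _ _
    split_ifs with h0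
    · apply sum_eq_zero
      intro i _
      rw [if_pos (by rw [hp, h0])]
    · apply sum_congr rfl
      intro i _
      rw [if_neg (by rw [hp]; exact h0)]
      congr 1
      unfold T
      rw [hp, if_neg h0, if_neg h0]
      have : 3 * (x + 3 ^ m * 2 * i) + 1 = (3 * x + 1) + 2 * (3 ^ (m + 1) * i) := by ring
      rw [this, Nat.add_mul_div_left _ _ (by norm_num)]
  have e2 : ∑ x ∈ Ico N (2 * N), |SS (od h) (3 ^ m * 2) H x| ≤
      ∑ z ∈ Ico N (2 * (2 * N)), |SS h (3 ^ (m + 1)) H z| := by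
    have h1 : ∑ x ∈ Ico N (2 * N), |SS (od h) (3 ^ m * 2) H x| =
        ∑ x ∈ (Ico N (2 * N)).filter (fun x => x % 2 = 1), |SS h (3 ^ (m + 1)) H (T x)| := by
      rw [sum_filter]
      apply sum_congr rfl
      intro x _
      rw [e1]
      by_cases h0 : x % 2 = 0
      · rw [if_pos h0, if_neg (by omega), abs_zero]
      · rw [if_neg h0, if_pos (by omega)]
    rw [h1]
    have hinj : Set.InjOn T ((Ico N (2 * N)).filter (fun x => x % 2 = 1) : Finset ℕ) := by
      intro x hx y hy hxy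
      rw [mem_coe, mem_filter] at hx hy
      unfold T at hxy
      rw [if_neg (by omega), if_neg (by omega)] at hxy
      omega
    rw [← sum_image (f := fun z => |SS h (3 ^ (m + 1)) H z|) hinj]
    apply sum_le_sum_of_subset_of_nonneg
    · intro z hz
      rw [mem_image] at hz
      obtain ⟨x, hx, rfl⟩ := hz
      rw [mem_filter, mem_Ico] at hx
      rw [mem_Ico]
      unfold T
      rw [if_neg (by omega)]
      omega
    · intro _ _ _
      exact abs_nonneg _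
  refine e2.trans ?_
  rw [← sum_Ico_consecutive _ (show N ≤ 2 * N by omega) (show 2 * N ≤ 2 * (2 * N) by omega)]
  have h1 := hN₂ N hN
  have h2 := hN₂ (2 * N) (by omega)
  push_cast at h2
  linarith

theorem locMean {u : ℕ → ℝ} (hs : SL u) : LocMean 1 (fun x : ℤ => u x.toNat) 0 := by
  intro m
  obtain ⟨Q, hQ⟩ := hs.2 m
  refine ⟨Q, fun η hη => ?_⟩
  obtain ⟨H, hH, N₂, hN₂⟩ := hQ (η / 2) (by positivity)
  refine ⟨H, hH, max 1 N₂, fun X hX => ?_⟩
  have hX1 : 1 ≤ X := (le_max_left _ _).trans hX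
  have hX2 : (N₂ : ℝ) ≤ X := (le_max_right _ _).trans hX
  set N : ℕ := ⌈X⌉₊ with hN
  have hNX : X ≤ N := Nat.le_ceil _
  have hNX' : (N : ℝ) < X + 1 := Nat.ceil_lt_add_one (by linarith)
  have hNN : N₂ ≤ N := by
    have : (N₂ : ℝ) ≤ N := hX2.trans hNX
    exact_mod_cast this
  have h1 : Wn X ⊆ (Ico N (2 * N)).map (Nat.castEmbedding (R := ℤ)) := by
    intro x hx
    rw [mem_Wn] at hx
    rw [Finset.mem_map]
    have hx0 : 0 ≤ x := by
      have : (0 : ℝ) ≤ x := by linarith [hx.1]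
      exact_mod_cast this
    obtain ⟨y, rfl⟩ := Int.eq_ofNat_of_zero_le hx0
    refine ⟨y, ?_, rfl⟩
    rw [mem_Ico]
    constructor
    · exact Nat.ceil_le.2 (by exact_mod_cast hx.1)
    · have h2 : ((y : ℕ) : ℝ) < 2 * N := by
        have := hx.2
        push_cast at this
        linarith
      exact_mod_cast h2
  calc ∑ x ∈ Wn X, |∑ i ∈ range H, (u (x + 1 * (3 ^ m * (Q : ℤ) * i)).toNat - 0)|
      ≤ ∑ x ∈ (Ico N (2 * N)).map (Nat.castEmbedding (R := ℤ)),
          |∑ i ∈ range H, (u (x + 1 * (3 ^ m * (Q : ℤ) * i)).toNat - 0)| :=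
        sum_le_sum_of_subset_of_nonneg h1 fun _ _ _ => abs_nonneg _
    _ = ∑ x ∈ Ico N (2 * N), |SS u (3 ^ m * Q) H x| := by
        rw [sum_map]
        apply sum_congr rfl
        intro x _
        unfold SS
        congr 1
        apply sum_congr rfl
        intro i _
        rw [sub_zero]
        congr 1
        show (((x : ℕ) : ℤ) + 1 * (3 ^ m * (Q : ℤ) * i)).toNat = _
        rw [one_mul]
        have : ((x : ℕ) : ℤ) + 3 ^ m * (Q : ℤ) * i = ((x + 3 ^ m * Q * i : ℕ) : ℤ) := by push_cast; ring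
        rw [this, Int.toNat_natCast]
    _ ≤ η / 2 * H * N := hN₂ N hNN
    _ ≤ η / 2 * H * (2 * X) := by
        gcongr
        linarith
    _ = η * H * X := by ring

/-- THE MEAN along almost all trajectories -/
theorem mean_zd {u : ℕ → ℝ} (hs : SL u) (κ ε : ℝ) (hκ : κ < 2 / Real.log (4 / 3)) (hε : 0 < ε) :
    Dn (fun n => ∃ t : ℕ, (t : ℝ) ≤ κ * Real.log n ∧
      ε * Real.log n < |∑ k ∈ range t, u (T^[k] n)|) 0 := by
  apply zd_of
  intro ε' hε'
  obtain ⟨κ', hκ0, hκκ, hκ1⟩ := R344.SP.kappa_bridge hκ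
  set e : ℝ := min ε ε' with he
  have he0 : 0 < e := lt_min hε hε'
  obtain ⟨N₀, hN₀⟩ := R344.SP.mean (d := 1) (by norm_num) isCoprime_one_left hκ0 hκ1
    (g := fun x : ℤ => u x.toNat) (fun x => hs.1 _) (ρ := 0) (by simp) (locMean hs) (ε := e / 2)
    (by positivity)
  obtain ⟨N₁, hN₁⟩ := R344.SP.finish (α := Unit) hκκ
    (fun _ n t => |∑ k ∈ range t, u (T^[k] n)|) he0 (by
    refine ⟨N₀, fun N hN _ S hS => ?_⟩
    refine hN₀ N hN (fun _ => 1) (fun _ => by simp) S ?_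
    intro n hn
    obtain ⟨h1, h2, t, ht, hbig⟩ := hS n hn
    refine ⟨h1, h2, t, ht, hbig.trans_eq ?_⟩
    congr 1
    apply sum_congr rfl
    intro k _
    rw [R344.SP.iter_cast (T := T) (fun _ => rfl) k n, Int.toNat_natCast]
    ring)
  refine ⟨N₁, fun N hN => ?_⟩
  have h1 := hN₁ N hN ()
  refine le_trans ?_ (h1.trans (mul_le_mul_of_nonneg_right (min_le_right _ _) (Nat.cast_nonneg _)))
  have hfin : {n : ℕ | 1 ≤ n ∧ n ≤ N ∧ ∃ t : ℕ, (t : ℝ) ≤ κ * Real.log n ∧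
      e * Real.log n < |∑ k ∈ range t, u (T^[k] n)|}.Finite :=
    (Set.finite_Icc 1 N).subset fun _ hn => ⟨hn.1, hn.2.1⟩
  have : Set.ncard {n : ℕ | 1 ≤ n ∧ n ≤ N ∧ ∃ t : ℕ, (t : ℝ) ≤ κ * Real.log n ∧
      ε * Real.log n < |∑ k ∈ range t, u (T^[k] n)|} ≤
      Set.ncard {n : ℕ | 1 ≤ n ∧ n ≤ N ∧ ∃ t : ℕ, (t : ℝ) ≤ κ * Real.log n ∧
      e * Real.log n < |∑ k ∈ range t, u (T^[k] n)|} := by
    apply Set.ncard_le_ncard _ hfin
    rintro n ⟨g1, g2, t, ht, g3⟩
    refine ⟨g1, g2, t, ht, lt_of_le_of_lt ?_ g3⟩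
    have hn1 : (1 : ℝ) ≤ n := by exact_mod_cast g1
    exact mul_le_mul_of_nonneg_right (min_le_left _ _) (Real.log_nonneg hn1)
  exact_mod_cast this

theorem sum_step {u : ℕ → ℝ} (hu : ∀ n, |u n| ≤ 1) {s' s : ℕ} (h : s' ≤ s) (n : ℕ) :
    |∑ k ∈ range s, u (T^[k] n)| ≤ |∑ k ∈ range s', u (T^[k] n)| + ((s : ℝ) - s') := by
  rw [← sum_range_add_sum_Ico _ h]
  refine (abs_add_le _ _).trans ?_
  have h1 : |∑ k ∈ Ico s' s, u (T^[k] n)| ≤ (s : ℝ) - s' := by
    refine (abs_sum_le_sum_abs _ _).trans ?_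
    calc ∑ k ∈ Ico s' s, |u (T^[k] n)| ≤ ∑ _k ∈ Ico s' s, (1 : ℝ) := sum_le_sum fun _ _ => hu _
      _ = ((s - s' : ℕ) : ℝ) := by simp
      _ = (s : ℝ) - s' := Nat.cast_sub h
  linarith

/-- complete trajectories of `T` -/
theorem complete {u : ℕ → ℝ} (hs : SL u) (ε : ℝ) (hε : 0 < ε) :
    Dn (fun n => ∃ t : ℕ, (T^[t] n = 1 ∧ ∀ j < t, T^[j] n ≠ 1) ∧ ∃ s ≤ t,
      ε * t < |∑ k ∈ range s, u (T^[k] n)|) 0 := by
  obtain ⟨δ, _, _, _, hδ⟩ := Pool.Agent.H499R2.ND.Bas_density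
  set v : ℝ := 2 / Real.log (4 / 3) with hv
  have hv1 : 1 < v := Pool.Agent.W5h47.BD.log43_lt
  set η : ℝ := min (ε / 16) 1 with hη
  have hη0 : 0 < η := by positivity
  have hη1 : η ≤ 1 := min_le_right _ _
  have hη2 : η ≤ ε / 16 := min_le_left _ _
  have h1 := mean_zd hs (v - η) (ε / 4) (by linarith) (by positivity)
  have h2 := Pool.Agent.H499R2.ND.bas_zd hδ (fun n _ ⟨t, ht, _⟩ => ⟨t, ht⟩)
    (Pool.Agent.H499R2.ND.bas_profile hδ (ε := η) hη0)
  have h3 := zd_small (max 1 (16 / ε))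
  refine zd_mono (zd_union (zd_union h1 h2) h3) ?_
  rintro n hn ⟨t, ⟨ht, htm⟩, s, hst, g6⟩
  by_contra hcon
  rw [not_or, not_or] at hcon
  obtain ⟨⟨hc1, hc2⟩, hc3⟩ := hcon
  push Not at hc3
  have hl1 : 1 < Real.log n := (le_max_left _ _).trans_lt hc3
  have hl2 : 16 / ε < Real.log n := (le_max_right _ _).trans_lt hc3
  have hl3 : 16 < ε * Real.log n := by
    rw [div_lt_iff₀ hε] at hl2
    linarith
  have htl := log_le_time hn ht
  -- the stopping time
  have htime : (t : ℝ) ≤ (v + η) * Real.log n := by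
    have hB : Pool.Agent.H499R2.ND.Bas n := ⟨t, ht⟩
    have h4 : ∃ t : ℕ, Pool.Agent.H499R2.ND.Tn^[t] n = 1 ∧
        (∀ j < t, Pool.Agent.H499R2.ND.Tn^[j] n ≠ 1) ∧
        |(t : ℝ) - 2 / Real.log (4 / 3) * Real.log n| ≤ η * Real.log n ∧
        ∀ j ≤ t, |Real.log ((Pool.Agent.H499R2.ND.Tn^[j] n : ℕ) : ℝ) -
          (Real.log n - j / 2 * Real.log (4 / 3))| ≤ η * Real.log n := by
      by_contra h5
      exact hc2 ⟨hB, h5⟩
    obtain ⟨t', ht', htm', h5, _⟩ := h4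
    have e1 : t' = t := by
      rcases lt_trichotomy t' t with h6 | h6 | h6
      · exact absurd ht' (htm t' h6)
      · exact h6
      · exact absurd ht (htm' t h6)
    subst e1
    have := (abs_le.1 h5).2
    linarith
  have key : ∀ s' : ℕ, (s' : ℝ) ≤ (v - η) * Real.log n →
      |∑ k ∈ range s', u (T^[k] n)| ≤ ε / 4 * Real.log n := by
    intro s' hs'
    by_contra h4
    push Not at h4
    exact hc1 ⟨s', hs', h4⟩
  set s' : ℕ := min s ⌊(v - η) * Real.log n⌋₊ with hs'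
  have hsr : (s : ℝ) ≤ t := by exact_mod_cast hst
  have hnn : 0 ≤ (v - η) * Real.log n := mul_nonneg (by linarith) (by linarith)
  have k1 : (s' : ℝ) ≤ (v - η) * Real.log n := by
    have : (s' : ℝ) ≤ (⌊(v - η) * Real.log n⌋₊ : ℝ) := by exact_mod_cast min_le_right _ _
    exact this.trans (Nat.floor_le hnn)
  have k2 : s' ≤ s := min_le_left _ _
  have k3 : (s : ℝ) - s' ≤ 2 * η * Real.log n + 1 := by
    rcases le_total s ⌊(v - η) * Real.log n⌋₊ with h5 | h5
    · have e1 : s' = s := min_eq_left h5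
      rw [e1]
      have : 0 ≤ 2 * η * Real.log n := by positivity
      linarith
    · have e1 : s' = ⌊(v - η) * Real.log n⌋₊ := min_eq_right h5
      rw [e1]
      have := Nat.lt_floor_add_one ((v - η) * Real.log n)
      linarith
  have k4 := key s' k1
  have k5 := sum_step hs.1 k2 n
  have k6 : 2 * η * Real.log n ≤ ε / 8 * Real.log n := by
    have : 0 ≤ Real.log n := by linarith
    nlinarith
  have k9 : ε * Real.log n ≤ ε * t := by gcongr
  linarith

/-- the terms of size at least `n ^ c` -/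
theorem partial_zd {u : ℕ → ℝ} (hs : SL u) (c ε : ℝ) (hc : 0 < c) (hε : 0 < ε) :
    Dn (fun n : ℕ => ∃ t : ℕ, (∀ k < t, (n : ℝ) ^ c ≤ ((T^[k] n : ℕ) : ℝ)) ∧
      ε * Real.log n < |∑ k ∈ range t, u (T^[k] n)|) 0 := by
  set v : ℝ := 2 / Real.log (4 / 3) with hv
  have hv1 : 1 < v := Pool.Agent.W5h47.BD.log43_lt
  have hmu := Pool.Agent.H499R2.ND.mu_pos'
  have hvmu : v * Pool.Agent.H319R2.Lln.mu = 1 := by
    rw [hv]
    unfold Pool.Agent.H319R2.Lln.mu
    have : 0 < Real.log (4 / 3) := Real.log_pos (by norm_num)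
    field_simp
  set η : ℝ := c / 2 with hη
  have hη0 : 0 < η := by positivity
  have h1 := mean_zd hs (v * (1 - c / 4)) ε (by
    have : 0 < v * (c / 4) := by positivity
    linarith) hε
  have h2 := Pool.Agent.H499R2.ND.prof_zd hη0
  have h3 := zd_small (max 1 (4 / (c * v)))
  refine zd_mono (zd_union (zd_union h1 h2) h3) ?_
  rintro n hn ⟨t, ht, g6⟩
  by_contra hcon
  rw [not_or, not_or] at hcon
  obtain ⟨⟨hc1, hc2⟩, hc3⟩ := hcon
  push Not at hc3
  have hl1 : 1 < Real.log n := (le_max_left _ _).trans_lt hc3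
  have hl2 : 4 / (c * v) < Real.log n := (le_max_right _ _).trans_lt hc3
  have hl3 : 4 < c * v * Real.log n := by
    rw [div_lt_iff₀ (by positivity)] at hl2
    linarith
  rw [not_not] at hc2
  obtain ⟨m₀, hm₀, hprof⟩ := hc2
  have hn0 : (0 : ℝ) < n := by exact_mod_cast hn
  have hlow : ∀ k < t, c * Real.log n ≤ Real.log ((T^[k] n : ℕ) : ℝ) := by
    intro k hk
    rw [← Real.log_rpow hn0]
    exact Real.log_le_log (by positivity) (ht k hk)
  have htm : t ≤ m₀ := by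
    by_contra h4
    push Not at h4
    have h5 := hlow m₀ h4
    have h6 : Real.log ((T^[m₀] n : ℕ) : ℝ) ≤ η * Real.log n := hm₀
    have : η * Real.log n < c * Real.log n := by
      apply mul_lt_mul_of_pos_right _ (by linarith)
      rw [hη]; linarith
    linarith
  apply hc1
  refine ⟨t, ?_, g6⟩
  rcases Nat.eq_zero_or_pos t with h4 | h4
  · rw [h4, Nat.cast_zero]
    have hc1' : c ≤ 1 ∨ 1 < c := le_or_gt c 1
    rcases hc1' with h5 | h5
    · have : 0 ≤ v * (1 - c / 4) := mul_nonneg (by linarith) (by linarith)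
      exact mul_nonneg this (by linarith)
    · -- the empty sum
      exfalso
      rw [h4] at g6
      simp only [range_zero, sum_empty, abs_zero] at g6
      have : 0 < ε * Real.log n := mul_pos hε (by linarith)
      linarith
  · have h5 := hlow (t - 1) (by omega)
    have h6 := (abs_le.1 (hprof (t - 1) (by omega))).1
    have h6' : -(η * Real.log n) ≤ Real.log ((T^[t - 1] n : ℕ) : ℝ) - Real.log n +
        Pool.Agent.H319R2.Lln.mu * ((t - 1 : ℕ) : ℝ) := h6
    have h7 := (abs_le.1 (hprof (t - 1) (by omega))).2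
    have h7' : Real.log ((T^[t - 1] n : ℕ) : ℝ) - Real.log n +
        Pool.Agent.H319R2.Lln.mu * ((t - 1 : ℕ) : ℝ) ≤ η * Real.log n := h7
    have h8 : ((t - 1 : ℕ) : ℝ) = t - 1 := by
      rw [Nat.cast_sub h4, Nat.cast_one]
    rw [h8] at h7'
    have h9 : Pool.Agent.H319R2.Lln.mu * ((t : ℝ) - 1) ≤ (1 - c / 2) * Real.log n := by
      rw [hη] at h7'
      linarith
    have h10 : (t : ℝ) - 1 ≤ v * ((1 - c / 2) * Real.log n) := by
      calc (t : ℝ) - 1 = v * Pool.Agent.H319R2.Lln.mu * ((t : ℝ) - 1) := by rw [hvmu, one_mul]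
        _ = v * (Pool.Agent.H319R2.Lln.mu * ((t : ℝ) - 1)) := by ring
        _ ≤ _ := mul_le_mul_of_nonneg_left h9 (by linarith)
    have h11 : v * (1 - c / 4) * Real.log n = v * ((1 - c / 2) * Real.log n) +
      c * v * Real.log n / 4 := by ring
    rw [h11]
    linarith

end Pool.Agent.W5h47.LT
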